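import Mathlib
import Pool.Agent.R812.CoSoberKernel

/-!
# The image of a co-sober space under a continuous kernel operator need not be co-sober
-/

set_option autoImplicit false

open Set

namespace Pool.Agent.Results.MP_1ae613_gt.KernelImage

open Pool.Agent.R812.CoSober

/-- There is a countable co-sober `T₀` space `X` and a continuous kernel operator `k` for the
specialization order of `X` such that the subspace `k(X)` is not co-sober (the image is even a
`T₁` space). Here `a ≤ b` in the specialization order means `a ∈ closure {b}`. -/
theorem result : ∃ (X : Type) (_ : TopologicalSpace X) (k : X → X),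
    Countable X ∧ T0Space X ∧ CoSober X ∧
      Continuous k ∧ (∀ x, k x ∈ closure {x}) ∧ (∀ x, k (k x) = k x) ∧
      T1Space (range k) ∧ ¬ CoSober (range k) :=
  ⟨Kernel.E, inferInstance, Kernel.k, inferInstanceAs (Countable (ℕ × ℕ)), inferInstance,
    Kernel.coSober_E, Kernel.continuous_k, Kernel.k_le, Kernel.k_idem, inferInstance,
    Kernel.not_coSober_range⟩

end Pool.Agent.Results.MP_1ae613_gt.KernelImage
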