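import Mathlib

/-!
# A continuous kernel operator on a co-sober space whose image is not co-sober
-/

set_option autoImplicit false

namespace Pool.Agent.Results.MP_1ae613_gt.KernelImageNotCosober

open Set Topology Filter

/-- The specialization order: `x ≤ y` iff `x ∈ cl {y}`. -/
def SpecLe {X : Type} [TopologicalSpace X] (x y : X) : Prop := x ∈ closure {y}

/-- `S` is saturated: it is the intersection of the open sets containing it. -/
def Saturated {X : Type} [TopologicalSpace X] (S : Set X) : Prop :=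
  S = ⋂₀ {U | IsOpen U ∧ S ⊆ U}

/-- Compact saturated sets. -/
def CompactSat {X : Type} [TopologicalSpace X] (S : Set X) : Prop := IsCompact S ∧ Saturated S

/-- A nonempty compact saturated set which is not the union of two proper compact saturated subsets. -/
def KIrreducible {X : Type} [TopologicalSpace X] (G : Set X) : Prop :=
  G.Nonempty ∧ CompactSat G ∧
    ∀ K₁ K₂ : Set X, CompactSat K₁ → CompactSat K₂ → K₁ ∪ K₂ = G → K₁ = G ∨ K₂ = G

/-- `X` is co-sober: every k-irreducible compact saturated set is `↑ x` for some point `x`. -/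
def CoSober (X : Type) [TopologicalSpace X] : Prop :=
  ∀ G : Set X, KIrreducible G → ∃ x : X, G = {y | SpecLe x y}

/-- `k` is a kernel operator for the specialization order. -/
def IsKernelOperator {X : Type} [TopologicalSpace X] (k : X → X) : Prop :=
  (∀ x, SpecLe (k x) x) ∧ k ∘ k = k

/-! ### Saturated sets are the upper sets -/

theorem saturated_iff {X : Type} [TopologicalSpace X] (S : Set X) :
    Saturated S ↔ ∀ x ∈ S, ∀ y, SpecLe x y → y ∈ S := by
  constructor
  · intro h x hx y hxy
    rw [h]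
    rintro U ⟨hU, hSU⟩
    have hxU : x ∈ U := hSU hx
    obtain ⟨z, hz1, hz2⟩ := mem_closure_iff.mp hxy U hU hxU
    rw [mem_singleton_iff] at hz2
    exact hz2 ▸ hz1
  · intro h
    refine Subset.antisymm (fun x hx U hU => hU.2 hx) ?_
    intro y hy
    by_contra hyS
    have h1 : IsOpen (closure {y})ᶜ := isClosed_closure.isOpen_compl
    have h2 : S ⊆ (closure {y})ᶜ := by
      intro x hx hc
      exact hyS (h x hx y hc)
    exact hy _ ⟨h1, h2⟩ (subset_closure rfl)

/-! ### Transport along homeomorphisms -/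

theorem specLe_homeo {Y Z : Type} [TopologicalSpace Y] [TopologicalSpace Z] (e : Y ≃ₜ Z) (x y : Y) :
    SpecLe (e x) (e y) ↔ SpecLe x y := by
  unfold SpecLe
  rw [← image_singleton, ← e.image_closure]
  simp

theorem compactSat_homeo {Y Z : Type} [TopologicalSpace Y] [TopologicalSpace Z] (e : Y ≃ₜ Z)
    (S : Set Y) : CompactSat (e '' S) ↔ CompactSat S := by
  unfold CompactSat
  rw [e.isCompact_image, saturated_iff, saturated_iff]
  refine and_congr_right fun _ => ?_
  constructor
  · intro h x hx y hxy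
    have := h (e x) ⟨x, hx, rfl⟩ (e y) ((specLe_homeo e x y).mpr hxy)
    obtain ⟨z, hz, hzy⟩ := this
    exact e.injective hzy ▸ hz
  · rintro h _ ⟨x, hx, rfl⟩ y hxy
    obtain ⟨y, rfl⟩ := e.surjective y
    exact ⟨y, h x hx y ((specLe_homeo e x y).mp hxy), rfl⟩

theorem coSober_homeo {Y Z : Type} [TopologicalSpace Y] [TopologicalSpace Z] (e : Y ≃ₜ Z)
    (h : CoSober Z) : CoSober Y := by
  intro G hG
  have hG' : KIrreducible (e '' G) := by
    refine ⟨hG.1.image _, (compactSat_homeo e G).mpr hG.2.1, ?_⟩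
    intro K₁ K₂ h1 h2 h12
    have e1 : K₁ = e '' (e ⁻¹' K₁) := (image_preimage_eq _ e.surjective).symm
    have e2 : K₂ = e '' (e ⁻¹' K₂) := (image_preimage_eq _ e.surjective).symm
    rw [e1] at h1
    rw [e2] at h2
    have h3 : e ⁻¹' K₁ ∪ e ⁻¹' K₂ = G := by
      rw [← preimage_union, h12, preimage_image_eq _ e.injective]
    rcases hG.2.2 _ _ ((compactSat_homeo e _).mp h1) ((compactSat_homeo e _).mp h2) h3 with h | h
    · left; rw [e1, h]
    · right; rw [e2, h]
  obtain ⟨x, hx⟩ := h _ hG'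
  obtain ⟨x, rfl⟩ := e.surjective x
  refine ⟨x, ?_⟩
  ext y
  have := Set.ext_iff.mp hx (e y)
  rw [mem_ofPred_eq, specLe_homeo] at this
  rw [mem_ofPred_eq, ← this]
  exact (e.injective.mem_set_image).symm

/-! ### The space `Y × ω` over a `T₁` space `Y` -/

/-- The underlying set `Y × ω`. -/
structure Tower (Y : Type) where
  /-- the point of `Y` -/
  pt : Y
  /-- the level -/
  lv : ℕ

theorem Tower.ext' {Y : Type} {a b : Tower Y} (h1 : a.pt = b.pt) (h2 : a.lv = b.lv) : a = b := by
  cases a; cases b; simp_all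

/-- `O` is open iff for `(y, n) ∈ O` all `(y, m)`, `m ≥ n`, are in `O`, and a punctured neighbourhood of
`y`, times `ω`, is contained in `O`. -/
instance (Y : Type) [TopologicalSpace Y] : TopologicalSpace (Tower Y) where
  IsOpen O := ∀ a ∈ O, (∀ m, a.lv ≤ m → (⟨a.pt, m⟩ : Tower Y) ∈ O) ∧
    ∃ U : Set Y, IsOpen U ∧ a.pt ∈ U ∧ ∀ z ∈ U, z ≠ a.pt → ∀ m, (⟨z, m⟩ : Tower Y) ∈ O
  isOpen_univ := fun a _ => ⟨fun _ _ => mem_univ _, univ, isOpen_univ, mem_univ _,
    fun _ _ _ _ => mem_univ _⟩
  isOpen_inter := by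
    intro s t hs ht a ha
    obtain ⟨h1, U, hU, haU, hUs⟩ := hs a ha.1
    obtain ⟨h2, V, hV, haV, hVt⟩ := ht a ha.2
    exact ⟨fun m hm => ⟨h1 m hm, h2 m hm⟩, U ∩ V, hU.inter hV, ⟨haU, haV⟩,
      fun z hz hne m => ⟨hUs z hz.1 hne m, hVt z hz.2 hne m⟩⟩
  isOpen_sUnion := by
    intro S hS a ha
    obtain ⟨s, hs, has⟩ := ha
    obtain ⟨h1, U, hU, haU, hUs⟩ := hS s hs a has
    exact ⟨fun m hm => ⟨s, hs, h1 m hm⟩, U, hU, haU, fun z hz hne m => ⟨s, hs, hUs z hz hne m⟩⟩

theorem isOpen_tower {Y : Type} [TopologicalSpace Y] (O : Set (Tower Y)) :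
    IsOpen O ↔ ∀ a ∈ O, (∀ m, a.lv ≤ m → (⟨a.pt, m⟩ : Tower Y) ∈ O) ∧
    ∃ U : Set Y, IsOpen U ∧ a.pt ∈ U ∧ ∀ z ∈ U, z ≠ a.pt → ∀ m, (⟨z, m⟩ : Tower Y) ∈ O := Iff.rfl

theorem specLe_tower {Y : Type} [TopologicalSpace Y] [T1Space Y] (a b : Tower Y) :
    SpecLe a b ↔ a.pt = b.pt ∧ a.lv ≤ b.lv := by
  unfold SpecLe
  rw [mem_closure_iff]
  constructor
  · intro h
    have hpt : a.pt = b.pt := by
      by_contra hne
      have hO : IsOpen {c : Tower Y | c.pt ≠ b.pt} := by
        rw [isOpen_tower]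
        intro c hc
        refine ⟨fun m _ => hc, {b.pt}ᶜ, isOpen_compl_singleton, hc, fun z hz _ m => hz⟩
      obtain ⟨c, hc1, hc2⟩ := h _ hO hne
      rw [mem_singleton_iff] at hc2
      subst hc2
      exact hc1 rfl
    refine ⟨hpt, ?_⟩
    have hO : IsOpen {c : Tower Y | c.pt = a.pt → a.lv ≤ c.lv} := by
      rw [isOpen_tower]
      intro c hc
      refine ⟨fun m hm h => (hc h).trans hm, {a.pt}ᶜ ∪ {c.pt}, ?_, ?_, ?_⟩
      · by_cases hca : c.pt = a.pt
        · have : ({a.pt}ᶜ ∪ {c.pt} : Set Y) = univ := by rw [hca]; exact compl_union_self _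
          rw [this]; exact isOpen_univ
        · have : {a.pt}ᶜ ∪ {c.pt} = ({a.pt}ᶜ : Set Y) := by
            apply union_eq_self_of_subset_right
            rintro x rfl
            exact hca
          rw [this]; exact isOpen_compl_singleton
      · right; rfl
      · rintro z (hz | hz) hne m h
        · exact absurd h hz
        · exact absurd hz hne
    obtain ⟨c, hc1, hc2⟩ := h _ hO (fun _ => le_rfl)
    rw [mem_singleton_iff] at hc2
    subst hc2
    exact hc1 hpt.symm
  · rintro ⟨h1, h2⟩ O hO haO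
    have := ((isOpen_tower O).mp hO a haO).1 b.lv h2
    refine ⟨b, ?_, rfl⟩
    have hb : (⟨a.pt, b.lv⟩ : Tower Y) = b := Tower.ext' h1 rfl
    rwa [hb] at this

theorem t0_tower {Y : Type} [TopologicalSpace Y] [T1Space Y] : T0Space (Tower Y) := by
  rw [t0Space_iff_inseparable]
  intro a b h
  have h1 : SpecLe a b := (inseparable_iff_mem_closure.mp h).1
  have h2 : SpecLe b a := (inseparable_iff_mem_closure.mp h).2
  rw [specLe_tower] at h1 h2
  exact Tower.ext' h1.1 (le_antisymm h1.2 h2.2)

theorem coSober_tower {Y : Type} [TopologicalSpace Y] [T1Space Y] : CoSober (Tower Y) := by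
  classical
  intro G hG
  obtain ⟨hne, ⟨hGc, hGs⟩, hirr⟩ := hG
  obtain ⟨a₀, ha₀⟩ := hne
  have hGs' := hGs
  rw [saturated_iff] at hGs
  have hex : ∃ n, (⟨a₀.pt, n⟩ : Tower Y) ∈ G := ⟨a₀.lv, ha₀⟩
  set a : Tower Y := ⟨a₀.pt, Nat.find hex⟩ with ha
  have haG : a ∈ G := Nat.find_spec hex
  have hamin : ∀ b ∈ G, b.pt = a.pt → a.lv ≤ b.lv := by
    intro b hb hba
    apply Nat.find_min' hex
    have : (⟨a₀.pt, b.lv⟩ : Tower Y) = b := Tower.ext' hba.symm rfl
    rwa [this]
  refine ⟨a, ?_⟩
  have hK2 : CompactSat {b | SpecLe a b} := by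
    constructor
    · have : IsCompact ({a} : Set (Tower Y)) := isCompact_singleton
      rw [isCompact_iff_ultrafilter_le_nhds]
      intro f hf
      refine ⟨a, (specLe_tower a a).mpr ⟨rfl, le_rfl⟩, ?_⟩
      intro s hs
      obtain ⟨O, hOs, hO, haO⟩ := mem_nhds_iff.mp hs
      refine mem_of_superset ?_ hOs
      rw [le_principal_iff] at hf
      refine mem_of_superset hf ?_
      intro b hb
      rw [mem_ofPred_eq, specLe_tower] at hb
      have := (((isOpen_tower O).mp hO) a haO).1 b.lv hb.2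
      have hb' : (⟨a.pt, b.lv⟩ : Tower Y) = b := Tower.ext' hb.1 rfl
      rwa [hb'] at this
    · rw [saturated_iff]
      intro b hb c hbc
      rw [mem_ofPred_eq, specLe_tower] at *
      exact ⟨hb.1.trans hbc.1, hb.2.trans hbc.2⟩
  have hK1 : CompactSat (G \ {a}) := by
    constructor
    · rw [isCompact_iff_ultrafilter_le_nhds]
      intro f hf
      rw [le_principal_iff] at hf
      obtain ⟨p, hp, hfp⟩ := isCompact_iff_ultrafilter_le_nhds.mp hGc f
        (le_principal_iff.mpr (mem_of_superset hf (fun x hx => hx.1)))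
      by_cases hpa : p = a
      · rw [← hpa] at haG
        refine ⟨⟨p.pt, p.lv + 1⟩, ⟨hGs p haG _ ((specLe_tower _ _).mpr ⟨rfl, Nat.le_succ _⟩), ?_⟩,
          ?_⟩
        · intro h
          rw [mem_singleton_iff, ← hpa] at h
          have h' : p.lv + 1 = p.lv := congrArg Tower.lv h
          omega
        · intro s hs
          obtain ⟨O, hOs, hO, haO⟩ := mem_nhds_iff.mp hs
          have hO' : IsOpen (O ∪ {p}) := by
            rw [isOpen_tower] at hO ⊢
            rintro b (hb | hb)
            · obtain ⟨h1, U, hU, hbU, h2⟩ := hO b hb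
              exact ⟨fun m hm => Or.inl (h1 m hm), U, hU, hbU, fun z hz hne m =>
                Or.inl (h2 z hz hne m)⟩
            · rw [mem_singleton_iff] at hb
              subst hb
              obtain ⟨h1, U, hU, hbU, h2⟩ := hO _ haO
              refine ⟨fun m hm => ?_, U, hU, hbU, fun z hz hne m =>
                Or.inl (h2 z hz hne m)⟩
              rcases Nat.eq_or_lt_of_le hm with h | h
              · right; exact Tower.ext' rfl h.symm
              · left; exact h1 m h
          have h3 : O ∪ {p} ∈ (f : Filter (Tower Y)) := hfp (hO'.mem_nhds (Or.inr rfl))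
          refine mem_of_superset (inter_mem h3 hf) ?_
          rintro b ⟨hb | hb, -, hb2⟩
          · exact hOs hb
          · exact absurd (hpa ▸ hb) hb2
      · exact ⟨p, ⟨hp, hpa⟩, hfp⟩
    · rw [saturated_iff]
      rintro b ⟨hb1, hb2⟩ c hbc
      refine ⟨hGs b hb1 c hbc, ?_⟩
      intro hca
      rw [mem_singleton_iff] at hca
      subst hca
      rw [specLe_tower] at hbc
      exact hb2 (Tower.ext' hbc.1 (le_antisymm hbc.2 (hamin b hb1 hbc.1)))
  have hU : (G \ {a}) ∪ {b | SpecLe a b} = G := by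
    apply Subset.antisymm
    · rintro b (hb | hb)
      · exact hb.1
      · exact hGs a haG b hb
    · intro b hb
      by_cases hba : b = a
      · right
        rw [hba, mem_ofPred_eq, specLe_tower]
        exact ⟨rfl, le_rfl⟩
      · left; exact ⟨hb, hba⟩
  rcases hirr _ _ hK1 hK2 hU with h | h
  · exfalso
    have : a ∈ G \ {a} := by rw [h]; exact haG
    exact this.2 rfl
  · exact h.symm

/-- The kernel operator `(y, n) ↦ (y, 0)`. -/
def ker {Y : Type} (a : Tower Y) : Tower Y := ⟨a.pt, 0⟩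

theorem isOpen_bottom {Y : Type} [TopologicalSpace Y] (O : Set (Tower Y)) (hO : IsOpen O) :
    IsOpen {y : Y | (⟨y, 0⟩ : Tower Y) ∈ O} := by
  rw [isOpen_iff_forall_mem_open]
  intro y hy
  obtain ⟨-, U, hU, hyU, h⟩ := (isOpen_tower O).mp hO _ hy
  refine ⟨U, ?_, hU, hyU⟩
  intro z hz
  by_cases hzy : z = y
  · subst hzy; exact hy
  · exact h z hz hzy 0

theorem isOpen_cyl {Y : Type} [TopologicalSpace Y] (W : Set Y) (hW : IsOpen W) :
    IsOpen {a : Tower Y | a.pt ∈ W} := by
  rw [isOpen_tower]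
  intro a ha
  exact ⟨fun m _ => ha, W, hW, ha, fun z hz _ m => hz⟩

theorem continuous_ker {Y : Type} [TopologicalSpace Y] : Continuous (ker : Tower Y → Tower Y) := by
  rw [continuous_def]
  intro O hO
  exact isOpen_cyl _ (isOpen_bottom O hO)

/-- `Y` is homeomorphic to the image of the kernel operator. -/
def homeoRange (Y : Type) [TopologicalSpace Y] : Y ≃ₜ (range (ker : Tower Y → Tower Y)) where
  toFun y := ⟨⟨y, 0⟩, ⟨⟨y, 0⟩, rfl⟩⟩
  invFun a := a.1.pt
  left_inv y := rfl
  right_inv := by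
    rintro ⟨_, ⟨a, rfl⟩⟩
    rfl
  continuous_toFun := by
    apply Continuous.subtype_mk
    rw [continuous_def]
    intro O hO
    exact isOpen_bottom O hO
  continuous_invFun := by
    rw [continuous_def]
    intro W hW
    exact (isOpen_cyl W hW).preimage continuous_subtype_val

/-! ### A compact, k-irreducible `T₁` space with more than one point -/

/-- The plane. -/
structure Plane where
  /-- first coordinate -/
  fst : ℝ
  /-- second coordinate -/
  snd : ℝ

theorem Plane.ext' {a b : Plane} (h1 : a.fst = b.fst) (h2 : a.snd = b.snd) : a = b := by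
  cases a; cases b; simp_all

/-- The lines `H_b` (`inl b`) and `V_a` (`inr a`). -/
def line : ℝ ⊕ ℝ → Set Plane
  | Sum.inl b => {p | p.snd = b}
  | Sum.inr a => {p | p.fst = a}

theorem exists_labels : ∃ f : ℝ → Plane, ∀ y, ¬ (f ⁻¹' {y}).Countable := by
  have h : Nonempty (ℝ ≃ (ℝ × ℝ) × ℝ) := by
    rw [← Cardinal.eq]
    simp [Cardinal.mk_prod, Cardinal.mk_real]
  obtain ⟨e⟩ := h
  refine ⟨fun t => ⟨(e t).1.1, (e t).1.2⟩, ?_⟩
  intro y hc
  have h1 : (range fun s : ℝ => e.symm ((y.fst, y.snd), s)) ⊆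
      (fun t => (⟨(e t).1.1, (e t).1.2⟩ : Plane)) ⁻¹' {y} := by
    rintro _ ⟨s, rfl⟩
    simp
  have h2 := hc.mono h1
  have h3 : Function.Injective fun s : ℝ => e.symm ((y.fst, y.snd), s) := by
    intro s t hst
    have := e.symm.injective hst
    simpa using this
  have h4 : (univ : Set ℝ).Countable := by
    have := h2.preimage_of_injOn (f := fun s : ℝ => e.symm ((y.fst, y.snd), s)) h3.injOn
    refine this.mono ?_
    intro s _
    exact ⟨s, rfl⟩
  exact Cardinal.not_countable_real h4

/-- The labels. -/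
noncomputable def lab : ℝ → Plane := exists_labels.choose

theorem lab_spec (y : Plane) : ¬ (lab ⁻¹' {y}).Countable := exists_labels.choose_spec y

/-- The label of a line. -/
noncomputable def label : ℝ ⊕ ℝ → Plane
  | Sum.inl b => lab b
  | Sum.inr a => lab a

/-- The closed sets: everything, and the sets contained in finitely many lines and containing the label
of each line which they meet in an infinite set. -/
def Cl (C : Set Plane) : Prop :=
  C = univ ∨ ((∃ F : Finset (ℝ ⊕ ℝ), C ⊆ ⋃ i ∈ F, line i) ∧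
    ∀ i, (line i ∩ C).Infinite → label i ∈ C)

theorem line_inter {i j : ℝ ⊕ ℝ} (hij : i ≠ j) : (line i ∩ line j).Subsingleton := by
  rintro p ⟨hp1, hp2⟩ q ⟨hq1, hq2⟩
  rcases i with b | a <;> rcases j with b' | a' <;> simp only [line, mem_ofPred_eq] at hp1 hp2 hq1 hq2
  · exact absurd (congrArg Sum.inl (hp1.symm.trans hp2)) hij
  · exact Plane.ext' (hp2.trans hq2.symm) (hp1.trans hq1.symm)
  · exact Plane.ext' (hp1.trans hq1.symm) (hp2.trans hq2.symm)
  · exact absurd (congrArg Sum.inr (hp1.symm.trans hp2)) hij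

theorem cl_label_or (C : Set Plane) (h : Cl C) : ∀ i, (line i ∩ C).Infinite → label i ∈ C := by
  rcases h with h | h
  · rw [h]; intro i _; exact mem_univ _
  · exact h.2

instance : TopologicalSpace Plane :=
  TopologicalSpace.ofClosed {C | Cl C}
    (by
      right
      refine ⟨⟨∅, by simp⟩, ?_⟩
      intro i hi
      simp at hi)
    (by
      intro A hA
      by_cases h : ∃ C ∈ A, C ≠ univ
      · obtain ⟨C, hC, hne⟩ := h
        right
        refine ⟨?_, ?_⟩
        · rcases hA hC with h | ⟨⟨F, hF⟩, -⟩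
          · exact absurd h hne
          · exact ⟨F, (sInter_subset_of_mem hC).trans hF⟩
        · intro i hi C' hC'
          exact cl_label_or C' (hA hC') i (hi.mono (inter_subset_inter_right _
            (sInter_subset_of_mem hC')))
      · left
        push Not at h
        rw [sInter_eq_univ]
        exact h)
    (by
      rintro A hA B hB
      rcases hA with rfl | ⟨⟨F, hF⟩, h1⟩
      · left; exact univ_union B
      rcases hB with rfl | ⟨⟨F', hF'⟩, h2⟩
      · left; exact union_univ A
      right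
      classical
      refine ⟨⟨F ∪ F', ?_⟩, ?_⟩
      · rintro p (hp | hp)
        · obtain ⟨i, hi, hpi⟩ := mem_iUnion₂.mp (hF hp)
          exact mem_iUnion₂.mpr ⟨i, Finset.mem_union_left _ hi, hpi⟩
        · obtain ⟨i, hi, hpi⟩ := mem_iUnion₂.mp (hF' hp)
          exact mem_iUnion₂.mpr ⟨i, Finset.mem_union_right _ hi, hpi⟩
      · intro i hi
        rw [inter_union_distrib_left, infinite_union] at hi
        rcases hi with hi | hi
        · left; exact h1 i hi
        · right; exact h2 i hi)

theorem isClosed_plane (C : Set Plane) : IsClosed C ↔ Cl C := by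
  rw [← isOpen_compl_iff]
  change Cᶜᶜ ∈ {C | Cl C} ↔ _
  rw [compl_compl]
  rfl

instance : T1Space Plane := by
  constructor
  intro p
  rw [isClosed_plane]
  right
  refine ⟨⟨{Sum.inl p.snd}, ?_⟩, ?_⟩
  · rintro _ rfl
    simp [line]
  · intro i hi
    exact absurd ((finite_singleton p).subset inter_subset_right) hi

/-- An ultrafilter converges to `p` iff `p` belongs to all its closed sets. -/
theorem le_nhds_of_closed (f : Ultrafilter Plane) (p : Plane)
    (h : ∀ C : Set Plane, IsClosed C → C ∈ f → p ∈ C) : (f : Filter Plane) ≤ 𝓝 p := by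
  intro s hs
  obtain ⟨O, hOs, hO, hpO⟩ := mem_nhds_iff.mp hs
  refine mem_of_superset ?_ hOs
  by_contra hc
  have h1 : Oᶜ ∈ f := Ultrafilter.compl_mem_iff_notMem.mpr hc
  exact h _ hO.isClosed_compl h1 hpO

theorem compact_plane : IsCompact (univ : Set Plane) := by
  rw [isCompact_iff_ultrafilter_le_nhds]
  intro f _
  by_cases hp : ∃ p, {p} ∈ f
  · obtain ⟨p, hp⟩ := hp
    refine ⟨p, mem_univ _, le_nhds_of_closed f p ?_⟩
    intro C _ hCf
    obtain ⟨q, hq1, hq2⟩ := f.nonempty_of_mem (inter_mem hCf hp)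
    rw [mem_singleton_iff] at hq2
    exact hq2 ▸ hq1
  push Not at hp
  have hfin : ∀ s : Set Plane, s.Finite → s ∉ f := by
    intro s hs hsf
    obtain ⟨q, -, hq⟩ := (Ultrafilter.finite_biUnion_mem_iff (f := f) (is := s)
      (s := fun q => ({q} : Set Plane)) hs).mp (by simpa using hsf)
    exact hp q hq
  by_cases hl : ∃ i, line i ∈ f
  · obtain ⟨i, hi⟩ := hl
    refine ⟨label i, mem_univ _, le_nhds_of_closed f _ ?_⟩
    intro C hC hCf
    apply cl_label_or C ((isClosed_plane C).mp hC) i
    intro hfi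
    exact hfin _ hfi (inter_mem hi hCf)
  · push Not at hl
    refine ⟨⟨0, 0⟩, mem_univ _, le_nhds_of_closed f _ ?_⟩
    intro C hC hCf
    rcases (isClosed_plane C).mp hC with h | ⟨⟨F, hF⟩, -⟩
    · rw [h]; exact mem_univ _
    · exfalso
      have h1 : (⋃ i ∈ F, line i) ∈ f := mem_of_superset hCf hF
      obtain ⟨i, -, hi⟩ := (Ultrafilter.finite_biUnion_mem_iff (f := f) (is := (F : Set (ℝ ⊕ ℝ)))
        (s := line) F.finite_toSet).mp (by simpa using h1)
      exact hl i hi

/-- A compact set missing the label of a line meets this line in a finite set. -/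
theorem finite_line_inter (K : Set Plane) (hK : IsCompact K) (i : ℝ ⊕ ℝ) (hi : label i ∉ K) :
    (line i ∩ K).Finite := by
  by_contra hinf
  have hinf' : (line i ∩ K).Infinite := hinf
  have hne : (cofinite ⊓ 𝓟 (line i ∩ K)).NeBot := by
    rw [inf_principal_neBot_iff]
    intro U hU
    by_contra hemp
    rw [not_nonempty_iff_eq_empty] at hemp
    apply hinf
    refine (mem_cofinite.mp hU).subset ?_
    intro q hq hqU
    have : q ∈ U ∩ (line i ∩ K) := ⟨hqU, hq⟩
    rw [hemp] at this
    exact this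
  obtain ⟨f, hf⟩ := Ultrafilter.exists_le (cofinite ⊓ 𝓟 (line i ∩ K))
  have hf1 : (f : Filter Plane) ≤ cofinite := hf.trans inf_le_left
  have hf2 : line i ∩ K ∈ f := by
    have := hf.trans inf_le_right
    exact le_principal_iff.mp this
  obtain ⟨p, hpK, hfp⟩ := isCompact_iff_ultrafilter_le_nhds.mp hK f
    (le_principal_iff.mpr (mem_of_superset hf2 inter_subset_right))
  have hpi : p ≠ label i := fun h => hi (h ▸ hpK)
  have hcl : IsClosed (((line i ∩ K) \ {p}) ∪ {label i}) := by
    rw [isClosed_plane]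
    right
    refine ⟨?_, ?_⟩
    · refine ⟨{i, Sum.inl (label i).snd}, ?_⟩
      rintro q (hq | hq)
      · exact mem_iUnion₂.mpr ⟨i, by simp, hq.1.1⟩
      · rw [mem_singleton_iff] at hq
        subst hq
        exact mem_iUnion₂.mpr ⟨Sum.inl (label i).snd, by simp, rfl⟩
    · intro j hj
      by_cases hij : j = i
      · subst hij; right; rfl
      · exfalso
        apply hj
        refine ((line_inter hij).finite.union (finite_singleton (label i))).subset ?_
        rintro q ⟨hq1, hq2 | hq2⟩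
        · left; exact ⟨hq1, hq2.1.1⟩
        · right; exact hq2
  have hO : (((line i ∩ K) \ {p}) ∪ {label i})ᶜ ∈ 𝓝 p := by
    apply hcl.isOpen_compl.mem_nhds
    rintro (h | h)
    · exact h.2 rfl
    · exact hpi h
  have h1 := hfp hO
  have h2 : ({p} : Set Plane)ᶜ ∈ (f : Filter Plane) := hf1 (by simp)
  obtain ⟨q, hq1, hq2, hq3⟩ := f.nonempty_of_mem (inter_mem h1 (inter_mem h2 hf2))
  exact hq1 (Or.inl ⟨hq3, hq2⟩)

theorem not_coSober_plane : ¬ CoSober Plane := by
  intro h
  have hsat : ∀ S : Set Plane, Saturated S := by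
    intro S
    rw [saturated_iff]
    intro x hx y hxy
    unfold SpecLe at hxy
    rw [closure_singleton, mem_singleton_iff] at hxy
    exact hxy ▸ hx
  have hirr : KIrreducible (univ : Set Plane) := by
    refine ⟨⟨⟨0, 0⟩, mem_univ _⟩, ⟨compact_plane, hsat _⟩, ?_⟩
    intro K₁ K₂ h1 h2 h12
    by_contra hcon
    push Not at hcon
    obtain ⟨y₁, hy₁⟩ := (ne_univ_iff_exists_notMem _).mp hcon.1
    obtain ⟨y₂, hy₂⟩ := (ne_univ_iff_exists_notMem _).mp hcon.2
    have hB1 : (lab ⁻¹' {y₁}).Infinite := fun hf => lab_spec y₁ hf.countable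
    have hfin1 : ∀ b ∈ lab ⁻¹' {y₁}, (line (Sum.inl b) ∩ K₁).Finite := by
      intro b hb
      apply finite_line_inter K₁ h1.1
      have : label (Sum.inl b) = y₁ := hb
      rwa [this]
    have hfin2 : ∀ a ∈ lab ⁻¹' {y₂}, (line (Sum.inr a) ∩ K₂).Finite := by
      intro a ha
      apply finite_line_inter K₂ h2.1
      have : label (Sum.inr a) = y₂ := ha
      rwa [this]
    let b : ℕ → ℝ := fun n => hB1.natEmbedding _ n
    have hb : ∀ n, b n ∈ lab ⁻¹' {y₁} := fun n => (hB1.natEmbedding _ n).2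
    have hbinj : Function.Injective b := fun m n hmn =>
      (hB1.natEmbedding _).injective (Subtype.ext hmn)
    have hcount : (⋃ n, Plane.fst '' (line (Sum.inl (b n)) ∩ K₁)).Countable :=
      countable_iUnion fun n => ((hfin1 _ (hb n)).image _).countable
    have hex : ∃ a ∈ lab ⁻¹' {y₂}, a ∉ ⋃ n, Plane.fst '' (line (Sum.inl (b n)) ∩ K₁) := by
      by_contra hc
      push Not at hc
      exact lab_spec y₂ (hcount.mono hc)
    obtain ⟨a, ha, ha'⟩ := hex
    have hmem : ∀ n, (⟨a, b n⟩ : Plane) ∈ line (Sum.inr a) ∩ K₂ := by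
      intro n
      refine ⟨rfl, ?_⟩
      have : (⟨a, b n⟩ : Plane) ∈ K₁ ∪ K₂ := by rw [h12]; exact mem_univ _
      rcases this with h | h
      · exfalso
        apply ha'
        exact mem_iUnion.mpr ⟨n, ⟨⟨a, b n⟩, ⟨rfl, h⟩, rfl⟩⟩
      · exact h
    refine Set.infinite_of_injective_forall_mem (f := fun n => (⟨a, b n⟩ : Plane)) ?_ hmem
      (hfin2 a ha)
    intro m n hmn
    exact hbinj (congrArg Plane.snd hmn)
  obtain ⟨x, hx⟩ := h _ hirr
  have h1 : (⟨x.fst + 1, 0⟩ : Plane) ∈ {y | SpecLe x y} := by rw [← hx]; exact mem_univ _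
  rw [mem_ofPred_eq, SpecLe, closure_singleton, mem_singleton_iff] at h1
  have := congrArg Plane.fst h1
  simp at this

/-- **Disproof of Q1.** There are a co-sober `T₀` space `X` and a continuous kernel operator `k` on `X`
whose image, with the subspace topology, is not co-sober. -/
theorem result : ∃ (X : Type) (_ : TopologicalSpace X), T0Space X ∧ CoSober X ∧
    ∃ k : X → X, Continuous k ∧ IsKernelOperator k ∧ ¬ CoSober (range k) := by
  refine ⟨Tower Plane, inferInstance, t0_tower, coSober_tower, ker, continuous_ker, ⟨?_, rfl⟩, ?_⟩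
  · intro a
    rw [specLe_tower]
    exact ⟨rfl, Nat.zero_le _⟩
  · intro h
    exact not_coSober_plane (coSober_homeo (homeoRange Plane) h)

end Pool.Agent.Results.MP_1ae613_gt.KernelImageNotCosober
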